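import Pool.Agent.Helper10.BD.Goals

namespace Pool.Agent.Helper96.BD.QF

open scoped ContDiff
open Real Filter Topology
open Pool.Agent.Helper50.BC (E)
open Pool.Agent.Helper10.BD

variable {r : ℕ}

lemma N_pos (Y : E r) : 0 < 1 + 20000 / 729 * ‖Y‖ ^ 2 := by positivity

lemma s_ge (Y : E r) : 1 ≤ sY Y := by
  unfold sY
  rw [Real.one_le_sqrt]
  have : 0 ≤ ‖Y‖ ^ 2 := by positivity
  linarith

lemma s_sq (Y : E r) : sY Y ^ 2 = 1 + 20000 / 729 * ‖Y‖ ^ 2 := by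
  unfold sY
  exact Real.sq_sqrt (N_pos Y).le

lemma s_deriv (Y : E r) : HasFDerivAt (sY (r := r)) ((20000 / 729 / sY Y) • innerSL ℝ Y) Y := by
  have h1 : HasFDerivAt (fun Y : E r => ‖Y‖ ^ 2) (2 • innerSL ℝ Y) Y :=
    (hasStrictFDerivAt_norm_sq Y).hasFDerivAt
  have h2 : HasFDerivAt (fun Y : E r => 1 + 20000 / 729 * ‖Y‖ ^ 2)
      ((20000 / 729 : ℝ) • (2 • innerSL ℝ Y)) Y := (h1.const_mul (20000 / 729)).const_add 1
  have h3 := h2.sqrt (N_pos Y).ne'
  have key : ((20000 / 729 / sY Y) • innerSL ℝ Y : E r →L[ℝ] ℝ) =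
      (1 / (2 * √(1 + 20000 / 729 * ‖Y‖ ^ 2))) • (20000 / 729 : ℝ) • 2 • (innerSL ℝ) Y := by
    ext v
    have := Real.sqrt_pos.2 (N_pos Y)
    simp only [_root_.smul_apply, innerSL_apply_apply, smul_eq_mul, nsmul_eq_mul]
    unfold sY
    push_cast
    field_simp
  rw [key]
  exact h3

lemma Q_deriv (Y : E r) : HasFDerivAt (QY (r := r))
    ((40000 / 729 * (1 - 2 / sY Y)) • innerSL ℝ Y) Y := by
  have h1 := (s_deriv Y).sub_const 2
  have h2 := h1.pow 2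
  have hs : sY Y ≠ 0 := by linarith [s_ge Y]
  have key : ((40000 / 729 * (1 - 2 / sY Y)) • innerSL ℝ Y : E r →L[ℝ] ℝ) =
      (2 • (sY Y - 2) ^ (2 - 1)) • (20000 / 729 / sY Y) • (innerSL ℝ) Y := by
    ext v
    simp only [_root_.smul_apply, innerSL_apply_apply, smul_eq_mul, nsmul_eq_mul]
    push_cast
    field_simp
    ring
  rw [key]
  exact h2

lemma Q_fderiv : fderiv ℝ (QY (r := r)) =
    fun Y : E r => (40000 / 729 * (1 - 2 / sY Y)) • innerSL ℝ Y := by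
  funext Y
  exact (Q_deriv Y).fderiv

lemma h_deriv (Y : E r) : HasFDerivAt (fun Y : E r => 40000 / 729 * (1 - 2 / sY Y))
    ((80000 / 729 * (20000 / 729) / sY Y ^ 3) • innerSL ℝ Y) Y := by
  have hs : sY Y ≠ 0 := by linarith [s_ge Y]
  have h1 : HasFDerivAt (fun Y : E r => (sY Y)⁻¹) _ Y := (hasDerivAt_inv hs).comp_hasFDerivAt Y (s_deriv Y)
  have h2 := ((h1.const_mul (2 : ℝ)).const_sub 1).const_mul (40000 / 729)
  have key : ((80000 / 729 * (20000 / 729) / sY Y ^ 3) • innerSL ℝ Y : E r →L[ℝ] ℝ) =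
      (40000 / 729 : ℝ) • -((2 : ℝ) • (-(sY Y ^ 2)⁻¹) • (20000 / 729 / sY Y) • (innerSL ℝ) Y) := by
    ext v
    simp only [_root_.smul_apply, _root_.neg_apply, innerSL_apply_apply, smul_eq_mul]
    field_simp
    ring
  rw [key]
  exact h2

lemma Q2 (Y η : E r) : fderiv ℝ (fderiv ℝ (QY (r := r))) Y η η =
    80000 / 729 * (20000 / 729) / sY Y ^ 3 * (inner ℝ Y η) ^ 2 +
      40000 / 729 * (1 - 2 / sY Y) * ‖η‖ ^ 2 := by
  rw [Q_fderiv]
  have h1 : HasFDerivAt (fun Y : E r => innerSL ℝ Y) (innerSL ℝ : E r →L[ℝ] E r →L[ℝ] ℝ) Y :=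
    (innerSL ℝ : E r →L[ℝ] E r →L[ℝ] ℝ).hasFDerivAt
  have h2 : HasFDerivAt (fun Y : E r => (40000 / 729 * (1 - 2 / sY Y)) • innerSL ℝ Y) _ Y :=
    (h_deriv Y).smul h1
  rw [h2.fderiv]
  change (40000 / 729 * (1 - 2 / sY Y)) * inner ℝ η η +
    (80000 / 729 * (20000 / 729) / sY Y ^ 3 * inner ℝ Y η) * inner ℝ Y η = _
  rw [real_inner_self_eq_norm_sq]
  ring

theorem t : G_QF := by
  intro r
  have hsm : ContDiff ℝ ∞ (sY (r := r)) := by
    unfold sY
    refine ContDiff.sqrt ?_ fun Y => (N_pos Y).ne'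
    exact contDiff_const.add (contDiff_const.mul (contDiff_norm_sq ℝ))
  refine ⟨?_, fun Y => ⟨s_ge Y, ?_, ?_, fun η => ?_⟩⟩
  · exact (hsm.sub contDiff_const).pow 2
  · rw [s_sq]; ring
  · rw [(Q_deriv Y).fderiv, norm_smul, innerSL_apply_norm, mul_pow, Real.norm_eq_abs, sq_abs]
    have hs : sY Y ≠ 0 := by linarith [s_ge Y]
    have e : ‖Y‖ ^ 2 = 729 / 20000 * (sY Y ^ 2 - 1) := by rw [s_sq]; ring
    rw [e]
    field_simp
    ring
  · rw [Q2]
    have hs := s_ge Y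
    have hs0 : 0 < sY Y := by linarith
    have hcs : (inner ℝ Y η) ^ 2 ≤ ‖Y‖ ^ 2 * ‖η‖ ^ 2 := by
      have := abs_real_inner_le_norm Y η
      rw [← mul_pow, ← sq_abs]
      exact pow_le_pow_left₀ (abs_nonneg _) this 2
    have e : ‖Y‖ ^ 2 = 729 / 20000 * (sY Y ^ 2 - 1) := by rw [s_sq]; ring
    rw [e] at hcs
    set a := (inner ℝ Y η) ^ 2 with ha
    have ha0 : 0 ≤ a := sq_nonneg _
    set b := ‖η‖ ^ 2 with hb
    have hb0 : 0 ≤ b := by positivity
    set s := sY Y with hsd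
    have h3 : 0 < s ^ 3 := by positivity
    rw [abs_le]
    constructor
    · have t1 : 0 ≤ 80000 / 729 * (20000 / 729) / s ^ 3 * a := by positivity
      have t2 : -1 ≤ 1 - 2 / s := by
        have : 2 / s ≤ 2 := by rw [div_le_iff₀ hs0]; linarith
        linarith
      have t3 : (-1) * b ≤ (1 - 2 / s) * b := mul_le_mul_of_nonneg_right t2 hb0
      nlinarith
    · have t1 : 80000 / 729 * (20000 / 729) / s ^ 3 * a ≤
          80000 / 729 * (20000 / 729) / s ^ 3 * (729 / 20000 * (s ^ 2 - 1) * b) :=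
        mul_le_mul_of_nonneg_left hcs (by positivity)
      have t2 : 80000 / 729 * (20000 / 729) / s ^ 3 * (729 / 20000 * (s ^ 2 - 1) * b) +
          40000 / 729 * (1 - 2 / s) * b = 40000 / 729 * b - 80000 / 729 / s ^ 3 * b := by
        field_simp
        ring
      have t3 : 0 ≤ 80000 / 729 / s ^ 3 * b := by positivity
      linarith

end Pool.Agent.Helper96.BD.QF
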